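import Mathlib
import Pool.Agent.H917R2.Tr.Stubs

/-! `L_loc`: local `(1+δ)`-trace made of copies of a small corner. -/

open scoped ComplexOrder InnerProductSpace Topology
open Filter

noncomputable section

namespace H917R2.Tr

open H759R2.Kad H710R2.DP

namespace LLocaux

variable {H : Type} [NormedAddCommGroup H] [InnerProductSpace ℂ H] [CompleteSpace H]

theorem cprj_of {M : VonNeumannAlgebra H} {z₀ : H →L[ℂ] H} (hz : IsCP M z₀) :
    CPrj (⟨z₀, hz.2.1⟩ : M.toStarSubalgebra) := by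
  refine ⟨⟨Subtype.ext hz.1.1, Subtype.ext hz.1.2⟩, fun a => Subtype.ext (hz.2.2 a a.2)⟩

theorem cp_of {M : VonNeumannAlgebra H} {g : M.toStarSubalgebra} (hg : CPrj g) :
    IsCP M (g : H →L[ℂ] H) := by
  refine ⟨⟨congrArg Subtype.val hg.1.1, congrArg Subtype.val hg.1.2⟩, g.2, fun a ha => ?_⟩
  exact congrArg Subtype.val (hg.2 ⟨a, ha⟩)

theorem fnt_of {M : VonNeumannAlgebra H} (hM : Fini M) {z₀ : H →L[ℂ] H} (hz : IsCP M z₀) :
    Fnt (⟨z₀, hz.2.1⟩ : M.toStarSubalgebra) := by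
  rintro ⟨v, hv⟩ h1 h2
  have h1' : star v * v = z₀ := congrArg Subtype.val h1
  have h2' : z₀ * v = v := congrArg Subtype.val h2
  have h3 : v * z₀ = v := by rw [← hz.2.2 v hv, h2']
  have hs := hz.1.1
  have hi := hz.1.2
  have h4 : star v * z₀ = star v := by
    have := congrArg star h2'
    rwa [star_mul, hs] at this
  have h5 : z₀ * star v = star v := by
    have := congrArg star h3
    rwa [star_mul, hs] at this
  have hu : v + (1 - z₀) ∈ M :=
    add_mem hv (sub_mem (one_mem M) hz.2.1)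
  have e1 : star (v + (1 - z₀)) * (v + (1 - z₀)) = 1 := by
    simp only [star_add, star_sub, star_one, hs, add_mul, mul_add, mul_sub, sub_mul, mul_one,
      one_mul, h1', h2', h4, hi]
    abel
  have e2 := hM _ hu e1
  have e3 : (v + (1 - z₀)) * star (v + (1 - z₀)) = v * star v + (1 - z₀) := by
    simp only [star_add, star_sub, star_one, hs, add_mul, mul_add, mul_sub, sub_mul, mul_one,
      one_mul, h3, h5, hi]
    abel
  rw [e3] at e2
  apply Subtype.ext
  show v * star v = z₀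
  rw [eq_sub_of_add_eq e2, sub_sub_cancel]

/-- the copies live in the corner -/
theorem gw {n : ℕ} (w : Fin n → (H →L[ℂ] H)) {g : H →L[ℂ] H} (hg : IsPr g)
    (hs : ∑ j, w j * star (w j) = g) (j : Fin n) : g * w j = w j := by
  have hz : ∀ η : H, (star (w j)) ((1 - g) η) = 0 := by
    intro η
    have h1 : ∀ ζ : H, ∑ i, ‖(star (w i)) ζ‖ ^ 2 = (⟪ζ, g ζ⟫_ℂ).re := by
      intro ζ
      rw [← hs, sum_apply, inner_sum, Complex.re_sum]
      refine Finset.sum_congr rfl fun i _ => ?_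
      rw [mul_apply_eq_comp, ← ContinuousLinearMap.adjoint_inner_left,
        ← ContinuousLinearMap.star_eq_adjoint]
      exact (inner_self_eq_norm_sq (𝕜 := ℂ) _).symm
    have h2 := h1 ((1 - g) η)
    have h3 : g ((1 - g) η) = 0 := by
      rw [← mul_apply_eq_comp, mul_sub, mul_one, hg.2, sub_self]
      rfl
    rw [h3, inner_zero_right, Complex.zero_re] at h2
    have h4 := (Finset.sum_eq_zero_iff_of_nonneg (fun i _ => by positivity)).mp h2 j
      (Finset.mem_univ j)
    exact norm_eq_zero.mp (pow_eq_zero_iff (two_ne_zero) |>.mp h4)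
  have h5 : star (w j) * (1 - g) = 0 := by
    ext η
    exact hz η
  have h6 := congrArg star h5
  rw [star_mul, star_star, star_sub, star_one, hg.1, star_zero, sub_mul, one_mul,
    sub_eq_zero] at h6
  exact h6.symm

end LLocaux

open LLocaux in
theorem p_L_loc (h : N_nrm) (h1 : W_near.{0}) (h2 : W_all.{0}) (h3 : W_cop.{0}) (h4 : W_sub.{0})
    (h5 : C_wst.{0}) (h6 : T_mu) : L_loc := by
  intro H _ _ _ M hM ξ hξ hfa δ hδ z₀ hz hz0
  have hW := h5 H M
  obtain ⟨φ, hφ, hφv, hφm⟩ := h H M ξ hξ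
  have hCz := cprj_of hz
  have hFz := fnt_of hM hz
  have hzne : (⟨z₀, hz.2.1⟩ : M.toStarSubalgebra) ≠ 0 := fun e => hz0 (congrArg Subtype.val e)
  obtain ⟨p, hp, hzp, hp0, hPI⟩ := h1 M.toStarSubalgebra hW φ hφ _ hCz.1 hzne hFz (by
    intro e he _ hφe
    have e1 : φ (star e * e) = 0 := by rw [he.1, he.2, hφe]
    rw [hφm] at e1
    have e2 : mu ξ (e : H →L[ℂ] H) = 0 := by exact_mod_cast e1
    exact Subtype.ext (hfa e e.2 e2)) δ hδ
  have hall := h2 M.toStarSubalgebra hW φ hφ p hp δ hδ.le hPI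
  obtain ⟨g, hg, hzg, hg0, n, w, hw, hsum⟩ := h3 M.toStarSubalgebra hW _ hCz hFz p hp hzp hp0
  have hCg := cp_of hg
  have hsum' : ∑ j, (w j : H →L[ℂ] H) * star (w j : H →L[ℂ] H) = (g : H →L[ℂ] H) := by
    rw [← hsum]
    push_cast
    rfl
  have hgw := gw (fun j => (w j : H →L[ℂ] H)) hCg.1 hsum'
  refine ⟨(g : H →L[ℂ] H), hCg, fun e => hg0 (Subtype.ext e), congrArg Subtype.val hzg, n,
    fun j => (w j : H →L[ℂ] H), fun j => ⟨(w j).2, hgw j⟩, hsum', ?_⟩
  intro x hx hgx
  obtain ⟨-, -, -, -, hmu5, -⟩ := h6 H ℕ ξ hξ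
  have hgx' : (g : H →L[ℂ] H) * star x = star x := by
    rw [hCg.2.2 _ (star_mem hx)]
    have := congrArg star hgx
    rwa [star_mul, hCg.1.1] at this
  have e1 : ∀ j, mu ξ (x * (w j : H →L[ℂ] H)) =
      ∑ i, mu ξ (star (w i : H →L[ℂ] H) * (x * (w j : H →L[ℂ] H))) := by
    intro j
    apply hmu5 n (fun j => (w j : H →L[ℂ] H))
    rw [hsum', ← mul_assoc, hgx]
  have e2 : ∀ j, mu ξ (star x * (w j : H →L[ℂ] H)) =
      ∑ i, mu ξ (star (w i : H →L[ℂ] H) * (star x * (w j : H →L[ℂ] H))) := by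
    intro j
    apply hmu5 n (fun j => (w j : H →L[ℂ] H))
    rw [hsum', ← mul_assoc, hgx']
  -- the corner
  have e3 : ∀ i j, mu ξ (star (w i : H →L[ℂ] H) * (x * (w j : H →L[ℂ] H))) ≤
      (1 + δ) * mu ξ (star (w j : H →L[ℂ] H) * (star x * (w i : H →L[ℂ] H))) := by
    intro i j
    obtain ⟨X, hX⟩ : ∃ X : M.toStarSubalgebra, X = ⟨x, hx⟩ := ⟨_, rfl⟩
    obtain ⟨y, hy⟩ : ∃ y : M.toStarSubalgebra, y = star (w i) * (X * w j) := ⟨_, rfl⟩
    have p1 : p * star (w i) = star (w i) := by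
      have := congrArg star (hw i).2
      rwa [star_mul, hp.1] at this
    have p2 : star (w j) * (star X * w i) = star y := by
      rw [hy, star_mul, star_mul, star_star, mul_assoc]
    have p3 : star y * p = star y := by
      rw [← p2, mul_assoc, mul_assoc, (hw i).2]
    have p4 : p * star y = star y := by
      have p1' : p * star (w j) = star (w j) := by
        have := congrArg star (hw j).2
        rwa [star_mul, hp.1] at this
      rw [← p2, ← mul_assoc, p1']
    have q := hall (star y) p4 p3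
    rw [star_star, hφm] at q
    have q2 : φ (y * star y) = (mu ξ (star y : M.toStarSubalgebra) : ℂ) := by
      rw [← hφm, star_star]
    rw [q2, Complex.ofReal_re, Complex.ofReal_re] at q
    rw [← p2] at q
    have c1 : (y : H →L[ℂ] H) = star (w i : H →L[ℂ] H) * (x * (w j : H →L[ℂ] H)) := by
      rw [hy, hX]
      rfl
    have c2 : ((star (w j) * (star X * w i) : M.toStarSubalgebra) : H →L[ℂ] H) =
        star (w j : H →L[ℂ] H) * (star x * (w i : H →L[ℂ] H)) := by
      rw [hX]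
      rfl
    rw [c1, c2] at q
    exact q
  calc ∑ j, mu ξ (x * (w j : H →L[ℂ] H))
      = ∑ j, ∑ i, mu ξ (star (w i : H →L[ℂ] H) * (x * (w j : H →L[ℂ] H))) :=
        Finset.sum_congr rfl fun j _ => e1 j
    _ ≤ ∑ j, ∑ i, (1 + δ) * mu ξ (star (w j : H →L[ℂ] H) * (star x * (w i : H →L[ℂ] H))) :=
        Finset.sum_le_sum fun j _ => Finset.sum_le_sum fun i _ => e3 i j
    _ = ∑ i, ∑ j, (1 + δ) * mu ξ (star (w j : H →L[ℂ] H) * (star x * (w i : H →L[ℂ] H))) :=
        Finset.sum_comm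
    _ = (1 + δ) * ∑ i, mu ξ (star x * (w i : H →L[ℂ] H)) := by
        rw [Finset.mul_sum]
        refine Finset.sum_congr rfl fun i _ => ?_
        rw [e2 i, Finset.mul_sum]

end H917R2.Tr
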